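import Mathlib
import Pool.Agent.Helper72.SquareFinal
import Pool.Agent.Helper72.SquareCounter

open Set MeasureTheory

namespace Pool.Agent.Results.MP_3da004_co.FullAnswer

/-- `Q` is a (closed) square: it is congruent to `[0, s] × [0, s]` for some side length `s > 0`. -/
def IsSquare (Q : Set (EuclideanSpace ℝ (Fin 2))) : Prop :=
  ∃ s : ℝ, 0 < s ∧ ∃ e : EuclideanSpace ℝ (Fin 2) ≃ᵢ EuclideanSpace ℝ (Fin 2),
    Q = e '' {x | ∀ i, 0 ≤ x i ∧ x i ≤ s}

/-- `Q` is a closed half plane: it is congruent to `{x | 0 ≤ x 0}`. -/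
def IsHalfPlane (Q : Set (EuclideanSpace ℝ (Fin 2))) : Prop :=
  ∃ e : EuclideanSpace ℝ (Fin 2) ≃ᵢ EuclideanSpace ℝ (Fin 2), Q = e '' {x | 0 ≤ x 0}

lemma IsSquare.convex {Q : Set (EuclideanSpace ℝ (Fin 2))} (h : IsSquare Q) : Convex ℝ Q := by
  obtain ⟨s, hs, e, rfl⟩ := h
  have hc : Convex ℝ {x : EuclideanSpace ℝ (Fin 2) | ∀ i, 0 ≤ x i ∧ x i ≤ s} := by
    intro x hx y hy a b ha hb hab i
    have h1 := hx i
    have h2 := hy i
    simp only [PiLp.add_apply, PiLp.smul_apply, smul_eq_mul]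
    constructor
    · have := mul_nonneg ha h1.1
      have := mul_nonneg hb h2.1
      linarith
    · have h3 := mul_le_mul_of_nonneg_left h1.2 ha
      have h4 := mul_le_mul_of_nonneg_left h2.2 hb
      have h5 : a * s + b * s = s := by rw [← add_mul, hab, one_mul]
      linarith
  have := hc.affine_image (e.toRealAffineIsometryEquiv.toAffineEquiv :
    EuclideanSpace ℝ (Fin 2) →ᵃ[ℝ] EuclideanSpace ℝ (Fin 2))
  exact this

lemma IsSquare.bounded {Q : Set (EuclideanSpace ℝ (Fin 2))} (h : IsSquare Q) :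
    Bornology.IsBounded Q := by
  obtain ⟨s, hs, e, rfl⟩ := h
  apply e.isometry.lipschitz.isBounded_image
  rw [Metric.isBounded_iff_subset_closedBall 0]
  refine ⟨2 * s, ?_⟩
  intro x hx
  rw [mem_closedBall_zero_iff, EuclideanSpace.norm_eq]
  apply Real.sqrt_le_iff.2
  refine ⟨by positivity, ?_⟩
  rw [Fin.sum_univ_two]
  have h0 := hx 0
  have h1 := hx 1
  simp only [Real.norm_eq_abs, sq_abs]
  nlinarith

lemma std_square_eq (s : ℝ) : {x : EuclideanSpace ℝ (Fin 2) | 0 ≤ x 0 ∧ x 0 ≤ s ∧ 0 ≤ x 1 ∧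
    x 1 ≤ 1 * s} = {x | ∀ i, 0 ≤ x i ∧ x i ≤ s} := by
  ext x
  rw [mem_ofPred_eq, mem_ofPred_eq, Fin.forall_fin_two, one_mul, and_assoc]

/-- The complete answer to the question. (i) Any three finite absolutely continuous measures on the
plane with compact supports are simultaneously halved by a square. (ii) Without any assumption on the
supports they are simultaneously halved by a square or by a half plane. (iii) In (ii) the half plane
cannot be dispensed with: there are three finite absolutely continuous measures which no square (and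
in fact no bounded convex set) halves simultaneously. -/
theorem result :
    (∀ μ : Fin 3 → Measure (EuclideanSpace ℝ (Fin 2)), (∀ i, IsFiniteMeasure (μ i)) →
      (∀ i, μ i ≪ (volume : Measure (EuclideanSpace ℝ (Fin 2)))) →
      (∀ i, ∃ K : Set (EuclideanSpace ℝ (Fin 2)), IsCompact K ∧ μ i Kᶜ = 0) →
      ∃ Q : Set (EuclideanSpace ℝ (Fin 2)), IsSquare Q ∧ ∀ i, μ i Q = μ i univ / 2) ∧
    (∀ μ : Fin 3 → Measure (EuclideanSpace ℝ (Fin 2)), (∀ i, IsFiniteMeasure (μ i)) →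
      (∀ i, μ i ≪ (volume : Measure (EuclideanSpace ℝ (Fin 2)))) →
      ∃ Q : Set (EuclideanSpace ℝ (Fin 2)), (IsSquare Q ∨ IsHalfPlane Q) ∧
        ∀ i, μ i Q = μ i univ / 2) ∧
    (∃ μ : Fin 3 → Measure (EuclideanSpace ℝ (Fin 2)), (∀ i, IsFiniteMeasure (μ i)) ∧
      (∀ i, μ i ≪ (volume : Measure (EuclideanSpace ℝ (Fin 2)))) ∧
      (∀ Q : Set (EuclideanSpace ℝ (Fin 2)), IsSquare Q → ¬ ∀ i, μ i Q = μ i univ / 2) ∧
      ∀ Q : Set (EuclideanSpace ℝ (Fin 2)), Convex ℝ Q → Bornology.IsBounded Q →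
        ¬ ∀ i, μ i Q = μ i univ / 2) := by
  refine ⟨?_, ?_, ?_⟩
  · intro μ hfin hac hcs
    obtain ⟨s, hs, e, h⟩ := Pool.Agent.Helper72.exists_congruent_rectangle 1 one_pos μ hac hcs
    rw [std_square_eq] at h
    exact ⟨_, ⟨s, hs, e, rfl⟩, h⟩
  · intro μ hfin hac
    rcases Pool.Agent.Helper72.exists_rectangle_or_halfplane 1 one_pos μ hac with
      ⟨s, hs, e, h⟩ | ⟨e, h⟩
    · rw [std_square_eq] at h
      exact ⟨_, Or.inl ⟨s, hs, e, rfl⟩, h⟩
    · exact ⟨_, Or.inr ⟨e, rfl⟩, h⟩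
  · obtain ⟨γ, hfin, h1, h2, hs⟩ := Pool.Agent.Helper72.exists_symmetric_measure
    have hm2 : Measurable (fun x : EuclideanSpace ℝ (Fin 2) => (2 : ℝ) • x) :=
      measurable_const_smul (2 : ℝ)
    have hfin2 : IsFiniteMeasure (γ.map (fun x => (2 : ℝ) • x)) := Measure.isFiniteMeasure_map _ _
    have hac2 : γ.map (fun x => (2 : ℝ) • x) ≪ (volume : Measure (EuclideanSpace ℝ (Fin 2))) := by
      refine Measure.AbsolutelyContinuous.mk fun A hA hA0 => ?_
      rw [Measure.map_apply hm2 hA]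
      apply h1
      rw [Measure.addHaar_preimage_smul _ two_ne_zero, hA0, mul_zero]
    have key : ∀ Q : Set (EuclideanSpace ℝ (Fin 2)), Convex ℝ Q → Bornology.IsBounded Q →
        ¬ (γ Q = γ univ / 2 ∧ (γ.map (fun x => (2 : ℝ) • x)) Q =
          (γ.map (fun x => (2 : ℝ) • x)) univ / 2) := by
      rintro Q hQ hb ⟨ha, hb'⟩
      exact Pool.Agent.Helper72.no_bounded_convex γ h1 h2 hs Q hQ hb ha hb'
    refine ⟨![γ, γ.map (fun x => (2 : ℝ) • x), γ], ?_, ?_, ?_, ?_⟩
    · intro i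
      fin_cases i
      · exact hfin
      · exact hfin2
      · exact hfin
    · intro i
      fin_cases i
      · exact h1
      · exact hac2
      · exact h1
    · intro Q hQ hall
      exact key Q hQ.convex hQ.bounded ⟨hall 0, hall 1⟩
    · intro Q hQ hb hall
      exact key Q hQ hb ⟨hall 0, hall 1⟩

end Pool.Agent.Results.MP_3da004_co.FullAnswer
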