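import Mathlib
import Pool.Agent.Helper72.SquareCounter

open Set MeasureTheory

namespace Pool.Agent.Results.MP_3da004_co.NoncompactDisproof

/-- `Q` is a (closed) square: it is congruent to `[0, s] × [0, s]` for some side length `s > 0`. -/
def IsSquare (Q : Set (EuclideanSpace ℝ (Fin 2))) : Prop :=
  ∃ s : ℝ, 0 < s ∧ ∃ e : EuclideanSpace ℝ (Fin 2) ≃ᵢ EuclideanSpace ℝ (Fin 2),
    Q = e '' {x | ∀ i, 0 ≤ x i ∧ x i ≤ s}

lemma IsSquare.convex {Q : Set (EuclideanSpace ℝ (Fin 2))} (h : IsSquare Q) : Convex ℝ Q := by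
  obtain ⟨s, hs, e, rfl⟩ := h
  have hc : Convex ℝ {x : EuclideanSpace ℝ (Fin 2) | ∀ i, 0 ≤ x i ∧ x i ≤ s} := by
    intro x hx y hy a b ha hb hab i
    have h1 := hx i
    have h2 := hy i
    simp only [PiLp.add_apply, PiLp.smul_apply, smul_eq_mul]
    constructor
    · have := mul_nonneg ha h1.1
      have := mul_nonneg hb h2.1
      linarith
    · have h3 := mul_le_mul_of_nonneg_left h1.2 ha
      have h4 := mul_le_mul_of_nonneg_left h2.2 hb
      have h5 : a * s + b * s = s := by rw [← add_mul, hab, one_mul]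
      linarith
  have := hc.affine_image (e.toRealAffineIsometryEquiv.toAffineEquiv :
    EuclideanSpace ℝ (Fin 2) →ᵃ[ℝ] EuclideanSpace ℝ (Fin 2))
  exact this

lemma IsSquare.bounded {Q : Set (EuclideanSpace ℝ (Fin 2))} (h : IsSquare Q) :
    Bornology.IsBounded Q := by
  obtain ⟨s, hs, e, rfl⟩ := h
  apply e.isometry.lipschitz.isBounded_image
  rw [Metric.isBounded_iff_subset_closedBall 0]
  refine ⟨2 * s, ?_⟩
  intro x hx
  rw [mem_closedBall_zero_iff, EuclideanSpace.norm_eq]
  apply Real.sqrt_le_iff.2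
  refine ⟨by positivity, ?_⟩
  rw [Fin.sum_univ_two]
  have h0 := hx 0
  have h1 := hx 1
  simp only [Real.norm_eq_abs, sq_abs]
  nlinarith

/-- Without compactness of the supports the answer is negative: there are three finite absolutely
continuous measures such that no square contains exactly half of each; indeed no bounded convex set
at all contains exactly half of the first two. -/
theorem result : ∃ μ : Fin 3 → Measure (EuclideanSpace ℝ (Fin 2)),
    (∀ i, IsFiniteMeasure (μ i)) ∧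
    (∀ i, μ i ≪ (volume : Measure (EuclideanSpace ℝ (Fin 2)))) ∧
    (∀ Q : Set (EuclideanSpace ℝ (Fin 2)), IsSquare Q → ¬ ∀ i, μ i Q = μ i univ / 2) ∧
    (∀ Q : Set (EuclideanSpace ℝ (Fin 2)), Convex ℝ Q → Bornology.IsBounded Q →
      ¬ (μ 0 Q = μ 0 univ / 2 ∧ μ 1 Q = μ 1 univ / 2)) := by
  obtain ⟨γ, hfin, h1, h2, hs⟩ := Pool.Agent.Helper72.exists_symmetric_measure
  have hm2 : Measurable (fun x : EuclideanSpace ℝ (Fin 2) => (2 : ℝ) • x) :=
    measurable_const_smul (2 : ℝ)
  have hfin2 : IsFiniteMeasure (γ.map (fun x => (2 : ℝ) • x)) := Measure.isFiniteMeasure_map _ _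
  have hac2 : γ.map (fun x => (2 : ℝ) • x) ≪ (volume : Measure (EuclideanSpace ℝ (Fin 2))) := by
    refine Measure.AbsolutelyContinuous.mk fun A hA hA0 => ?_
    rw [Measure.map_apply hm2 hA]
    apply h1
    rw [Measure.addHaar_preimage_smul _ two_ne_zero, hA0, mul_zero]
  have key : ∀ Q : Set (EuclideanSpace ℝ (Fin 2)), Convex ℝ Q → Bornology.IsBounded Q →
      ¬ (γ Q = γ univ / 2 ∧ (γ.map (fun x => (2 : ℝ) • x)) Q =
        (γ.map (fun x => (2 : ℝ) • x)) univ / 2) := by
    rintro Q hQ hb ⟨ha, hb'⟩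
    exact Pool.Agent.Helper72.no_bounded_convex γ h1 h2 hs Q hQ hb ha hb'
  refine ⟨![γ, γ.map (fun x => (2 : ℝ) • x), γ], ?_, ?_, ?_, ?_⟩
  · intro i
    fin_cases i
    · exact hfin
    · exact hfin2
    · exact hfin
  · intro i
    fin_cases i
    · exact h1
    · exact hac2
    · exact h1
  · intro Q hQ hall
    exact key Q hQ.convex hQ.bounded ⟨hall 0, hall 1⟩
  · exact key

end Pool.Agent.Results.MP_3da004_co.NoncompactDisproof
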