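import Mathlib
import Pool.Agent.Helper72.SquareFinal

open Set MeasureTheory

namespace Pool.Agent.Results.MP_3da004_co.SquareOrHalfPlane

/-- `Q` is a (closed) rectangle of aspect ratio `ρ`: it is congruent to `[0, s] × [0, ρ s]` for some
side length `s > 0`. For `ρ = 1` this says that `Q` is a square. -/
def IsRectangle (ρ : ℝ) (Q : Set (EuclideanSpace ℝ (Fin 2))) : Prop :=
  ∃ s : ℝ, 0 < s ∧ ∃ e : EuclideanSpace ℝ (Fin 2) ≃ᵢ EuclideanSpace ℝ (Fin 2),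
    Q = e '' {x | 0 ≤ x 0 ∧ x 0 ≤ s ∧ 0 ≤ x 1 ∧ x 1 ≤ ρ * s}

/-- `Q` is a closed half plane: it is congruent to `{x | 0 ≤ x 0}`. -/
def IsHalfPlane (Q : Set (EuclideanSpace ℝ (Fin 2))) : Prop :=
  ∃ e : EuclideanSpace ℝ (Fin 2) ≃ᵢ EuclideanSpace ℝ (Fin 2), Q = e '' {x | 0 ≤ x 0}

/-- Three finite absolutely continuous measures in the plane are always simultaneously halved by a
rectangle of any prescribed aspect ratio (in particular, by a square) or by a half plane, and if the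
measures have compact supports then a rectangle of the prescribed aspect ratio (a square) does it. -/
theorem result (ρ : ℝ) (hρ : 0 < ρ) (μ : Fin 3 → Measure (EuclideanSpace ℝ (Fin 2)))
    (hfin : ∀ i, IsFiniteMeasure (μ i))
    (hac : ∀ i, μ i ≪ (volume : Measure (EuclideanSpace ℝ (Fin 2)))) :
    (∃ Q : Set (EuclideanSpace ℝ (Fin 2)), (IsRectangle ρ Q ∨ IsHalfPlane Q) ∧
      ∀ i, μ i Q = μ i univ / 2) ∧
    ((∀ i, ∃ K : Set (EuclideanSpace ℝ (Fin 2)), IsCompact K ∧ μ i Kᶜ = 0) →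
      ∃ Q : Set (EuclideanSpace ℝ (Fin 2)), IsRectangle ρ Q ∧ ∀ i, μ i Q = μ i univ / 2) := by
  refine ⟨?_, fun hcs => ?_⟩
  · rcases Pool.Agent.Helper72.exists_rectangle_or_halfplane ρ hρ μ hac with
      ⟨s, hs, e, h⟩ | ⟨e, h⟩
    · exact ⟨_, Or.inl ⟨s, hs, e, rfl⟩, h⟩
    · exact ⟨_, Or.inr ⟨e, rfl⟩, h⟩
  · obtain ⟨s, hs, e, h⟩ := Pool.Agent.Helper72.exists_congruent_rectangle ρ hρ μ hac hcs
    exact ⟨_, ⟨s, hs, e, rfl⟩, h⟩

end Pool.Agent.Results.MP_3da004_co.SquareOrHalfPlane
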